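import Pool.Agent.H29.RT.Targets

/-!
# Prime ideals of degree one
-/

set_option autoImplicit false

open Complex MeasureTheory Set Filter Topology

namespace Pool.Agent.H36.RT

open Pool.Agent.H29.RT NumberField

/-- the summand `h(n) n^{-x}` as a homomorphism -/
noncomputable def hh (h : ℕ → ℂ) (h0 : h 0 = 0) (h1 : h 1 = 1)
    (hm : ∀ a b, h (a * b) = h a * h b) (x : ℝ) : ℕ →*₀ ℂ where
  toFun n := h n * (n : ℂ) ^ (-(x : ℂ))
  map_zero' := by rw [h0, zero_mul]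
  map_one' := by rw [h1]; simp
  map_mul' a b := by
    rw [hm, Nat.cast_mul, Complex.natCast_mul_natCast_cpow]
    ring

/-- the tail of the logarithm -/
noncomputable def rr (h : ℕ → ℂ) (x : ℝ) (p : ℕ) : ℂ :=
  -log (1 - h p * (p : ℂ) ^ (-(x : ℂ))) - h p * (p : ℂ) ^ (-(x : ℂ))

lemma norm_hp {h : ℕ → ℂ} (hl : ∀ a, ‖h a‖ ≤ 1) {x : ℝ} {p : ℕ} (hp : 2 ≤ p) :
    ‖h p * (p : ℂ) ^ (-(x : ℂ))‖ ≤ (p : ℝ) ^ (-x) := by
  rw [norm_mul, Complex.norm_natCast_cpow_of_pos (by omega)]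
  have : (-(x : ℂ)).re = -x := by simp
  rw [this]
  exact mul_le_of_le_one_left (Real.rpow_nonneg (Nat.cast_nonneg _) _) (hl p)

lemma norm_hp1 {h : ℕ → ℂ} (hl : ∀ a, ‖h a‖ ≤ 1) {x : ℝ} (hx : 1 ≤ x) {p : ℕ} (hp : 2 ≤ p) :
    ‖h p * (p : ℂ) ^ (-(x : ℂ))‖ ≤ (p : ℝ)⁻¹ := by
  refine (norm_hp hl hp).trans ?_
  rw [← Real.rpow_neg_one]
  refine Real.rpow_le_rpow_of_exponent_le ?_ (by linarith)
  exact_mod_cast (by omega : 1 ≤ p)

lemma inv_le_half {p : ℕ} (hp : 2 ≤ p) : (p : ℝ)⁻¹ ≤ 1 / 2 := by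
  have h2 : (2 : ℝ) ≤ p := by exact_mod_cast hp
  rw [one_div]
  exact inv_anti₀ two_pos h2

lemma norm_rr {h : ℕ → ℂ} (hl : ∀ a, ‖h a‖ ≤ 1) {x : ℝ} (hx : 1 ≤ x) {p : ℕ} (hp : 2 ≤ p) :
    ‖rr h x p‖ ≤ (p : ℝ) ^ (-2 : ℝ) := by
  set w := h p * (p : ℂ) ^ (-(x : ℂ)) with hw
  have h1 : ‖w‖ ≤ (p : ℝ)⁻¹ := norm_hp1 hl hx hp
  have h2 := inv_le_half hp
  have h3 : ‖-w‖ < 1 := by
    rw [norm_neg]
    linarith
  have h4 := Complex.norm_log_one_add_sub_self_le h3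
  have h5 : rr h x p = -(log (1 + -w) - -w) := by
    unfold rr
    rw [← hw, ← sub_eq_add_neg]
    ring
  rw [h5, norm_neg]
  refine h4.trans ?_
  rw [norm_neg]
  have h6 : (1 - ‖w‖)⁻¹ ≤ 2 := by
    rw [inv_le_comm₀ (by linarith) two_pos]
    linarith
  have h7 : ‖w‖ ^ 2 ≤ (p : ℝ) ^ (-2 : ℝ) := by
    have : (p : ℝ) ^ (-2 : ℝ) = ((p : ℝ)⁻¹) ^ 2 := by
      rw [Real.rpow_neg (Nat.cast_nonneg _), inv_pow]
      norm_num
    rw [this]
    exact pow_le_pow_left₀ (norm_nonneg _) h1 2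
  have h8 : 0 ≤ ‖w‖ ^ 2 := by positivity
  nlinarith

lemma summable_p2 : Summable fun p : Nat.Primes => (p : ℝ) ^ (-2 : ℝ) :=
  Nat.Primes.summable_rpow.2 (by norm_num)

lemma summable_px {x : ℝ} (hx : 1 < x) : Summable fun p : Nat.Primes => (p : ℝ) ^ (-x) :=
  Nat.Primes.summable_rpow.2 (by linarith)

lemma summable_rr {h : ℕ → ℂ} (hl : ∀ a, ‖h a‖ ≤ 1) {x : ℝ} (hx : 1 ≤ x) :
    Summable fun p : Nat.Primes => rr h x p :=
  Summable.of_norm_bounded summable_p2 fun p => norm_rr hl hx p.2.two_le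

lemma summable_hp {h : ℕ → ℂ} (hl : ∀ a, ‖h a‖ ≤ 1) {x : ℝ} (hx : 1 < x) :
    Summable fun p : Nat.Primes => h p * (p : ℂ) ^ (-(x : ℂ)) :=
  Summable.of_norm_bounded (summable_px hx) fun p => norm_hp hl p.2.two_le

lemma euler {h : ℕ → ℂ} (h0 : h 0 = 0) (h1 : h 1 = 1) (hm : ∀ a b, h (a * b) = h a * h b)
    (hl : ∀ a, ‖h a‖ ≤ 1) {x : ℝ} (hx : 1 < x) :
    ∑' m : ℕ, h m * (m : ℂ) ^ (-(x : ℂ)) =
      cexp (∑' p : Nat.Primes, h p * (p : ℂ) ^ (-(x : ℂ)) + ∑' p : Nat.Primes, rr h x p) := by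
  have hs : Summable fun n => ‖hh h h0 h1 hm x n‖ := by
    refine Summable.of_nonneg_of_le (fun n => norm_nonneg _) (fun n => ?_)
      (Real.summable_nat_rpow.2 (by linarith : -x < -1))
    change ‖h n * (n : ℂ) ^ (-(x : ℂ))‖ ≤ (n : ℝ) ^ (-x)
    rcases Nat.eq_zero_or_pos n with rfl | hn
    · rw [h0, zero_mul, norm_zero]
      exact Real.rpow_nonneg (Nat.cast_nonneg _) _
    · rw [norm_mul, Complex.norm_natCast_cpow_of_pos hn]
      have : (-(x : ℂ)).re = -x := by simp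
      rw [this]
      exact mul_le_of_le_one_left (Real.rpow_nonneg (Nat.cast_nonneg _) _) (hl n)
  have h2 := EulerProduct.exp_tsum_primes_log_eq_tsum hs
  have h3 : ∑' n : ℕ, hh h h0 h1 hm x n = ∑' m : ℕ, h m * (m : ℂ) ^ (-(x : ℂ)) := rfl
  rw [← h3, ← h2, ← (summable_hp hl hx).tsum_add (summable_rr hl hx.le)]
  congr 1
  refine tsum_congr fun p => ?_
  change -log (1 - h p * (p : ℂ) ^ (-(x : ℂ))) = _
  unfold rr
  ring

lemma tendsto_rr {h : ℕ → ℂ} (hl : ∀ a, ‖h a‖ ≤ 1) :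
    Tendsto (fun x : ℝ => ∑' p : Nat.Primes, rr h x p) (𝓝[>] 1)
      (𝓝 (∑' p : Nat.Primes, rr h 1 p)) := by
  refine tendsto_tsum_of_dominated_convergence summable_p2 ?_ ?_
  · intro p
    have hc : ContinuousAt (fun x : ℝ => rr h x p) 1 := by
      have hp0 : ((p : ℕ) : ℂ) ≠ 0 := by exact_mod_cast p.2.ne_zero
      have h1 : ContinuousAt (fun x : ℝ => h p * ((p : ℕ) : ℂ) ^ (-(x : ℂ))) 1 := by
        refine ContinuousAt.mul continuousAt_const ?_
        refine ContinuousAt.const_cpow ?_ (Or.inl hp0)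
        exact (Complex.continuous_ofReal.neg).continuousAt
      have h2 : (1 - h p * ((p : ℕ) : ℂ) ^ (-((1 : ℝ) : ℂ))) ∈ slitPlane := by
        rw [sub_eq_add_neg]
        refine Complex.mem_slitPlane_of_norm_lt_one ?_
        rw [norm_neg]
        have h3 := norm_hp1 hl (le_refl (1 : ℝ)) p.2.two_le
        have h4 := inv_le_half p.2.two_le
        linarith
      unfold rr
      exact ((continuousAt_const.sub h1).clog h2).neg.sub h1
    exact hc.tendsto.mono_left nhdsWithin_le_nhds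
  · filter_upwards [self_mem_nhdsWithin] with x hx p
    exact norm_rr hl (le_of_lt hx) p.2.two_le

/-- the sum over primes -/
noncomputable def PP (K : Type) [Field K] [NumberField K] (x : ℝ) : ℝ :=
  ∑' p : Nat.Primes, (Pool.Agent.H25.HK.spf K p 1 : ℝ) * (p : ℝ) ^ (-x)

lemma key (hEP : Pool.Agent.H25.HK.T_EP) (K : Type) [Field K] [NumberField K] :
    (∃ N : ℝ, ∀ p : Nat.Primes, (Pool.Agent.H25.HK.spf K p 1 : ℝ) ≤ N) ∧
    ∃ R : ℝ → ℂ, ∃ r : ℂ, Tendsto R (𝓝[>] 1) (𝓝 r) ∧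
      ∀ x : ℝ, 1 < x → dedekindZeta K x = cexp (PP K x + R x) := by
  obtain ⟨h, h0, h1, hm, hl, hz, hs⟩ := hEP K
  have hs1 : ∀ p : Nat.Primes, ∑ j, h j p = (Pool.Agent.H25.HK.spf K p 1 : ℂ) := by
    intro p
    rw [← hs p 1 p.2 le_rfl]
    exact Finset.sum_congr rfl fun j _ => (pow_one _).symm
  refine ⟨⟨Module.finrank ℚ K, fun p => ?_⟩, fun x => ∑ j, ∑' p : Nat.Primes, rr (h j) x p,
    ∑ j, ∑' p : Nat.Primes, rr (h j) 1 p, ?_, ?_⟩
  · have h2 : ‖((Pool.Agent.H25.HK.spf K p 1 : ℕ) : ℂ)‖ ≤ ∑ j : Fin (Module.finrank ℚ K), (1 : ℝ) := by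
      rw [← hs1 p]
      exact (norm_sum_le _ _).trans (Finset.sum_le_sum fun j _ => hl j p)
    rw [Complex.norm_natCast] at h2
    simpa using h2
  · exact tendsto_finsetSum _ fun j _ => tendsto_rr (hl j)
  · intro x hx
    rw [hz x (by simpa using hx)]
    have h3 : ∀ j, ∑' m : ℕ, h j m * (m : ℂ) ^ (-(x : ℂ)) =
      cexp (∑' p : Nat.Primes, h j p * (p : ℂ) ^ (-(x : ℂ)) + ∑' p : Nat.Primes, rr (h j) x p) :=
      fun j => euler (h0 j) (h1 j) (hm j) (hl j) hx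
    rw [Finset.prod_congr rfl fun j _ => h3 j, ← Complex.exp_sum, Finset.sum_add_distrib]
    congr 2
    rw [← Summable.tsum_finsetSum fun j _ => summable_hp (hl j) hx]
    unfold PP
    rw [Complex.ofReal_tsum]
    refine tsum_congr fun p => ?_
    rw [← Finset.sum_mul, hs1 p, Complex.ofReal_mul, Complex.ofReal_cpow (Nat.cast_nonneg _)]
    push_cast
    rfl

lemma summable_PP (K : Type) [Field K] [NumberField K] {N : ℝ}
    (hN : ∀ p : Nat.Primes, (Pool.Agent.H25.HK.spf K p 1 : ℝ) ≤ N) {x : ℝ} (hx : 1 < x) :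
    Summable fun p : Nat.Primes => (Pool.Agent.H25.HK.spf K p 1 : ℝ) * (p : ℝ) ^ (-x) := by
  refine Summable.of_nonneg_of_le (fun p => by positivity) (fun p => ?_)
    ((summable_px hx).mul_left N)
  exact mul_le_mul_of_nonneg_right (hN p) (by positivity)

lemma tendsto_PP (hEP : Pool.Agent.H25.HK.T_EP) (K : Type) [Field K] [NumberField K] :
    ∃ c : ℝ, Tendsto (fun x : ℝ => PP K x + Real.log (x - 1)) (𝓝[>] 1) (𝓝 c) := by
  obtain ⟨-, R, r, hR, hE⟩ := key hEP K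
  refine ⟨Real.log (dedekindZeta_residue K) - r.re, ?_⟩
  have h1 : Tendsto (fun x : ℝ => ‖(x - 1 : ℂ) * dedekindZeta K x‖) (𝓝[>] 1)
      (𝓝 (dedekindZeta_residue K)) := by
    have := (tendsto_sub_one_mul_dedekindZeta_nhdsGT K).norm
    rwa [Complex.norm_real, Real.norm_of_nonneg (dedekindZeta_residue_pos K).le] at this
  have h2 : Tendsto (fun x : ℝ => Real.log ‖(x - 1 : ℂ) * dedekindZeta K x‖) (𝓝[>] 1)
      (𝓝 (Real.log (dedekindZeta_residue K))) :=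
    h1.log (dedekindZeta_residue_pos K).ne'
  have h3 : Tendsto (fun x : ℝ => (R x).re) (𝓝[>] 1) (𝓝 r.re) :=
    (Complex.continuous_re.tendsto _).comp hR
  refine (h2.sub h3).congr' ?_
  filter_upwards [self_mem_nhdsWithin] with x hx
  have hx1 : (0 : ℝ) < x - 1 := by
    have : (1 : ℝ) < x := hx
    linarith
  rw [norm_mul, hE x hx, Complex.norm_exp]
  have h4 : ‖(x - 1 : ℂ)‖ = x - 1 := by
    have : (x - 1 : ℂ) = ((x - 1 : ℝ) : ℂ) := by push_cast; rfl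
    rw [this, Complex.norm_real, Real.norm_of_nonneg hx1.le]
  rw [h4, Real.log_mul hx1.ne' (Real.exp_ne_zero _), Real.log_exp, Complex.add_re,
    Complex.ofReal_re]
  ring

theorem pf_dzr (h : Pool.Agent.H25.HK.T_EP) : T_DZR := by
  intro K _ _ s hs
  obtain ⟨⟨N, hN⟩, -⟩ := key h K
  obtain ⟨c, hc⟩ := tendsto_PP h K
  have hs0 : (0 : ℝ) < s := by exact_mod_cast hs
  have ht : ∀ a : ℝ, 0 < a → Tendsto (fun L : ℝ => 1 + a / L) atTop (𝓝[>] 1) := by
    intro a ha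
    rw [tendsto_nhdsWithin_iff]
    refine ⟨?_, ?_⟩
    · have := (tendsto_const_nhds (x := a)).div_atTop tendsto_id (l := atTop)
      simpa using (tendsto_const_nhds (x := (1 : ℝ))).add this
    · filter_upwards [eventually_gt_atTop 0] with L hL
      have : 0 < a / L := by positivity
      exact Set.mem_Ioi.2 (by linarith)
  have h1 := (hc.comp (ht s hs0)).sub (hc.comp (ht 1 one_pos))
  have h2 := h1.sub (tendsto_const_nhds (x := Real.log s))
  have h3 : c - c - Real.log s = -(1 * Real.log s) := by ring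
  rw [h3] at h2
  refine h2.congr' ?_
  filter_upwards [eventually_gt_atTop 0] with L hL
  simp only [Function.comp_apply]
  have hx1 : (1 : ℝ) < 1 + s / L := by
    have : 0 < (s : ℝ) / L := by positivity
    linarith
  have hx2 : (1 : ℝ) < 1 + 1 / L := by
    have : 0 < 1 / L := by positivity
    linarith
  have h4 : ∑' p : Nat.Primes, (Pool.Agent.H25.HK.spf K p 1 : ℝ) *
      ((p : ℝ) ^ (-(1 + s / L) : ℝ) - (p : ℝ) ^ (-(1 + 1 / L) : ℝ)) =
      PP K (1 + s / L) - PP K (1 + 1 / L) := by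
    unfold PP
    rw [← (summable_PP K hN hx1).tsum_sub (summable_PP K hN hx2)]
    exact tsum_congr fun p => by ring
  rw [h4, add_sub_cancel_left, add_sub_cancel_left, Real.log_div hs0.ne' hL.ne',
    Real.log_div one_ne_zero hL.ne', Real.log_one]
  ring

end Pool.Agent.H36.RT
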