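import Pool.Agent.H29.RT.Targets

/-!
# The coefficients of the roots
-/

set_option autoImplicit false

open Complex MeasureTheory Set Filter Topology

namespace Pool.Agent.H36.RT

open Pool.Agent.H29.RT Pool.Agent.H25.DP Pool.Agent.H25.DL Pool.Agent.H25.MZ

lemma zw_mul (w : ℝ) {a b : ℕ} (h : Nat.Coprime a b) : zw w (a * b) = zw w a * zw w b := by
  rcases Nat.eq_zero_or_pos a with rfl | ha
  · rw [Nat.zero_mul, zw_zero, zero_mul]
  rcases Nat.eq_zero_or_pos b with rfl | hb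
  · rw [Nat.mul_zero, zw_zero, mul_zero]
  unfold zw
  rw [if_neg ha.ne', if_neg hb.ne', if_neg (Nat.mul_pos ha hb).ne',
    Nat.factorization_mul ha.ne' hb.ne', Finsupp.prod_add_index_of_disjoint]
  rw [Nat.support_factorization, Nat.support_factorization]
  exact h.disjoint_primeFactors

lemma zw_prime (w : ℝ) {p : ℕ} (hp : p.Prime) : zw w p = w := by
  unfold zw
  rw [if_neg hp.ne_zero, hp.factorization, Finsupp.prod_single_index]
  · simp [bw]
  · simp [bw]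

theorem pf_rfm : T_RFM := by
  intro F m hm
  refine ⟨?_, ?_⟩
  · intro l a b hab
    rcases l with x | x
    · change (F.p x.1).L.h x.2 (a * b) * ((zw (1 / (m : ℝ)) (a * b) : ℝ) : ℂ) =
        (F.p x.1).L.h x.2 a * ((zw (1 / (m : ℝ)) a : ℝ) : ℂ) *
          ((F.p x.1).L.h x.2 b * ((zw (1 / (m : ℝ)) b : ℝ) : ℂ))
      rw [(F.p x.1).L.h_mul, zw_mul _ hab]
      push_cast
      ring
    · change (F.q x.1).L.h x.2 (a * b) * ((zw (-(1 / (m : ℝ))) (a * b) : ℝ) : ℂ) =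
        (F.q x.1).L.h x.2 a * ((zw (-(1 / (m : ℝ))) a : ℝ) : ℂ) *
          ((F.q x.1).L.h x.2 b * ((zw (-(1 / (m : ℝ))) b : ℝ) : ℂ))
      rw [(F.q x.1).L.h_mul, zw_mul _ hab]
      push_cast
      ring
  · intro p hp
    rw [Fintype.sum_sum_type, Fintype.sum_sigma, Fintype.sum_sigma]
    have h1 : ∀ i : F.I, ∑ k : Fin (F.p i).L.n,
        (rf F m (Sum.inl ⟨i, k⟩)).c p * (p : ℂ) ^ (-((rf F m (Sum.inl ⟨i, k⟩)).τ * I) : ℂ) =
        ((p : ℂ) ^ (-((F.p i).τ * I) : ℂ) * ∑ k, (F.p i).L.h k p) * (1 / (m : ℂ)) := by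
      intro i
      rw [Finset.mul_sum, Finset.sum_mul]
      refine Finset.sum_congr rfl fun k _ => ?_
      change (F.p i).L.h k p * ((zw (1 / (m : ℝ)) p : ℝ) : ℂ) * (p : ℂ) ^ (-((F.p i).τ * I) : ℂ) = _
      rw [zw_prime _ hp]
      push_cast
      ring
    have h2 : ∀ i : F.J, ∑ k : Fin (F.q i).L.n,
        (rf F m (Sum.inr ⟨i, k⟩)).c p * (p : ℂ) ^ (-((rf F m (Sum.inr ⟨i, k⟩)).τ * I) : ℂ) =
        ((p : ℂ) ^ (-((F.q i).τ * I) : ℂ) * ∑ k, (F.q i).L.h k p) * (-(1 / (m : ℂ))) := by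
      intro i
      rw [Finset.mul_sum, Finset.sum_mul]
      refine Finset.sum_congr rfl fun k _ => ?_
      change (F.q i).L.h k p * ((zw (-(1 / (m : ℝ))) p : ℝ) : ℂ) *
        (p : ℂ) ^ (-((F.q i).τ * I) : ℂ) = _
      rw [zw_prime _ hp]
      push_cast
      ring
    rw [Finset.sum_congr rfl fun i _ => h1 i, Finset.sum_congr rfl fun i _ => h2 i,
      ← Finset.sum_mul, ← Finset.sum_mul]
    ring

end Pool.Agent.H36.RT
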