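import Pool.Agent.H29.RT.Targets
import Pool.Agent.H89.Cubic.Div

/-!
# The coefficients from the main blocks
-/

set_option autoImplicit false

open Complex MeasureTheory Set Filter Topology

namespace Pool.Agent.H36.RT

open Pool.Agent.H29.RT Pool.Agent.H25.DP Pool.Agent.H25.DL

variable {ι : Type} [Fintype ι]

lemma mem_TU {f : ι → Fac} {D T : ℝ} (hr : ∀ l, (f l).r = 1) (z : ι → ℕ) :
    z ∈ TU f D T ↔ (∀ l, 1 ≤ z l) ∧
      ∑ l, (Nat.log 2 (z l) : ℝ) * Real.log 2 ≤ D * Real.log T := by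
  classical
  have hl2 : (0 : ℝ) < Real.log 2 := Real.log_pos one_lt_two
  unfold TU mains
  simp only [Finset.mem_biUnion, Finset.mem_filter, Fintype.mem_piFinset, Finset.mem_range,
    Finset.mem_Ico]
  constructor
  · rintro ⟨j, ⟨_, hj⟩, hz⟩
    refine ⟨fun l => le_trans Nat.one_le_two_pow (hz l).1, ?_⟩
    refine le_trans (le_of_eq ?_) hj
    refine Finset.sum_congr rfl fun l _ => ?_
    rw [Nat.log_eq_of_pow_le_of_lt_pow (hz l).1 (hz l).2, hr l, mul_one]
  · rintro ⟨h1, h2⟩
    refine ⟨fun l => Nat.log 2 (z l), ⟨fun l => ?_, ?_⟩, fun l => ⟨?_, ?_⟩⟩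
    · refine Nat.lt_succ_of_le (Nat.le_floor ?_)
      rw [one_mul, le_div_iff₀ hl2]
      refine le_trans ?_ h2
      exact Finset.single_le_sum (f := fun l => (Nat.log 2 (z l) : ℝ) * Real.log 2)
        (fun i _ => by positivity) (Finset.mem_univ l)
    · refine le_trans (le_of_eq ?_) h2
      refine Finset.sum_congr rfl fun l _ => ?_
      rw [hr l, mul_one]
    · exact Nat.pow_log_le_self 2 (Nat.one_le_iff_ne_zero.1 (h1 l))
    · exact Nat.lt_pow_succ_log_self one_lt_two _

lemma log_le_log {n : ℕ} (hn : 1 ≤ n) : (Nat.log 2 n : ℝ) * Real.log 2 ≤ Real.log n := by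
  rw [← Real.log_pow]
  refine Real.log_le_log (by positivity) ?_
  exact_mod_cast Nat.pow_log_le_self 2 (Nat.one_le_iff_ne_zero.1 hn)

lemma log_prod_eq {z : ι → ℕ} (hz : ∀ l, 1 ≤ z l) :
    Real.log ((∏ l, z l : ℕ) : ℝ) = ∑ l, Real.log (z l) := by
  rw [Nat.cast_prod, Real.log_prod]
  intro l _
  have := hz l
  positivity

lemma sum_log_le {z : ι → ℕ} (hz : ∀ l, 1 ≤ z l) :
    ∑ l, (Nat.log 2 (z l) : ℝ) * Real.log 2 ≤ Real.log ((∏ l, z l : ℕ) : ℝ) := by
  rw [log_prod_eq hz]
  exact Finset.sum_le_sum fun l _ => log_le_log (hz l)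

open Classical in
lemma filter_sub {f : ι → Fac} {D T : ℝ} {k : ℕ} (hk : 1 ≤ k) :
    (TU f D T).filter (fun z => ∏ l, z l = k) ⊆
      (Fintype.piFinset fun _ : ι => k.divisors).filter (fun z => ∏ l, z l = k) := by
  intro z hz
  rw [Finset.mem_filter] at hz
  rw [Finset.mem_filter]
  refine ⟨?_, hz.2⟩
  rw [Fintype.mem_piFinset]
  intro l
  rw [Nat.mem_divisors]
  refine ⟨?_, Nat.one_le_iff_ne_zero.1 hk⟩
  rw [← hz.2]
  exact Finset.dvd_prod_of_mem z (Finset.mem_univ l)

lemma norm_cc_le (f : ι → Fac) {z : ι → ℕ} (hz : ∀ l, 1 ≤ z l) : ‖cc f z‖ ≤ 1 := by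
  unfold cc
  rw [norm_prod]
  refine Finset.prod_le_one (fun i _ => norm_nonneg _) fun i _ => ?_
  rw [norm_mul, Complex.norm_natCast_cpow_of_pos (hz i)]
  have : (-(((f i).τ : ℂ) * I)).re = 0 := by simp
  rw [this, Real.rpow_zero, mul_one]
  exact (f i).c_le _

open Classical in
theorem pf_grp : T_GRP := by
  intro ι _ f D hr hD
  refine ⟨?_, ?_, ?_, ?_⟩
  · intro T hT k hk hkT
    unfold at' ac
    refine Finset.sum_congr ?_ fun _ _ => rfl
    refine Finset.Subset.antisymm (filter_sub hk) ?_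
    intro z hz
    rw [Finset.mem_filter, Fintype.mem_piFinset] at hz
    rw [Finset.mem_filter]
    refine ⟨?_, hz.2⟩
    have h1 : ∀ l, 1 ≤ z l := fun l => Nat.pos_of_mem_divisors (hz.1 l)
    rw [mem_TU hr]
    refine ⟨h1, (sum_log_le h1).trans ?_⟩
    rw [hz.2, ← Real.log_rpow (by linarith)]
    refine Real.log_le_log ?_ hkT
    exact_mod_cast hk
  · intro T hT z hz
    rw [mem_TU hr] at hz
    refine ⟨Nat.one_le_iff_ne_zero.2 (Finset.prod_ne_zero_iff.2 fun l _ => Nat.one_le_iff_ne_zero.1 (hz.1 l)), ?_⟩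
    have hT0 : (0 : ℝ) < T := by linarith
    have h1 : ∀ l, ((z l : ℕ) : ℝ) ≤ 2 * (2 : ℝ) ^ ((Nat.log 2 (z l) : ℕ) : ℝ) := by
      intro l
      have := (Nat.lt_pow_succ_log_self one_lt_two (z l)).le
      rw [Real.rpow_natCast, ← pow_succ']
      exact_mod_cast this
    calc ((∏ l, z l : ℕ) : ℝ) = ∏ l, ((z l : ℕ) : ℝ) := Nat.cast_prod _ _
      _ ≤ ∏ l, 2 * (2 : ℝ) ^ ((Nat.log 2 (z l) : ℕ) : ℝ) :=
          Finset.prod_le_prod (fun l _ => Nat.cast_nonneg _) fun l _ => h1 l
      _ = 2 ^ Fintype.card ι * ∏ l, (2 : ℝ) ^ ((Nat.log 2 (z l) : ℕ) : ℝ) := by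
          rw [Finset.prod_mul_distrib, Finset.prod_const, Finset.card_univ]
      _ = 2 ^ Fintype.card ι * Real.exp (∑ l, (Nat.log 2 (z l) : ℝ) * Real.log 2) := by
          rw [Real.exp_sum]
          congr 1
          refine Finset.prod_congr rfl fun l _ => ?_
          rw [Real.rpow_def_of_pos two_pos, mul_comm]
      _ ≤ 2 ^ Fintype.card ι * Real.exp (D * Real.log T) := by
          refine mul_le_mul_of_nonneg_left (Real.exp_le_exp.2 hz.2) (by positivity)
      _ = 2 ^ Fintype.card ι * T ^ D := by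
          rw [Real.rpow_def_of_pos hT0, mul_comm D]
  · intro z hz
    refine ⟨?_, ?_⟩
    · unfold lam
      rw [log_prod_eq hz]
      refine Finset.sum_congr rfl fun l _ => ?_
      rw [hr l, one_mul]
    · unfold co cc
      have h1 : ((((((∏ l, z l : ℕ) : ℝ) ^ (-(1 / 2) : ℝ)) : ℝ) : ℂ)) =
          ∏ l, ((z l : ℕ) : ℂ) ^ (-(1 / 2) : ℂ) := by
        rw [Nat.cast_prod, ← Real.finsetProd_rpow _ _ fun l _ => Nat.cast_nonneg _]
        rw [Complex.ofReal_prod]
        refine Finset.prod_congr rfl fun l _ => ?_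
        rw [Complex.ofReal_cpow (Nat.cast_nonneg _)]
        push_cast
        rfl
      rw [h1, ← Finset.prod_mul_distrib]
      refine Finset.prod_congr rfl fun l _ => ?_
      have hz0 : ((z l : ℕ) : ℂ) ≠ 0 := by
        have := hz l
        exact_mod_cast (Nat.one_le_iff_ne_zero.1 this)
      rw [mul_assoc, ← Complex.cpow_add _ _ hz0]
      congr 2
      ring
  · intro ε hε
    set N := Fintype.card ι with hN
    obtain ⟨C₀, hC₀, hdiv⟩ := Pool.Agent.H89.Cubic.div_bound (ε / (N + 1)) (by positivity)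
    refine ⟨C₀ ^ N, by positivity, ?_⟩
    intro k hk
    have hk1 : (1 : ℝ) ≤ k := by exact_mod_cast hk
    have hcard : (((Fintype.piFinset fun _ : ι => k.divisors).filter
        (fun z => ∏ l, z l = k)).card : ℝ) ≤ C₀ ^ N * (k : ℝ) ^ ε := by
      calc (((Fintype.piFinset fun _ : ι => k.divisors).filter
          (fun z => ∏ l, z l = k)).card : ℝ) ≤ ((Fintype.piFinset fun _ : ι => k.divisors).card : ℝ) := by
            exact_mod_cast Finset.card_filter_le _ _
        _ = (k.divisors.card : ℝ) ^ N := by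
            rw [Fintype.card_piFinset, Finset.prod_const, Finset.card_univ]
            push_cast
            rfl
        _ ≤ (C₀ * (k : ℝ) ^ (ε / (N + 1))) ^ N :=
            pow_le_pow_left₀ (Nat.cast_nonneg _) (hdiv k hk) _
        _ = C₀ ^ N * (k : ℝ) ^ (ε / (N + 1) * N) := by
            rw [mul_pow, Real.rpow_mul (by linarith), Real.rpow_natCast]
        _ ≤ C₀ ^ N * (k : ℝ) ^ ε := by
            refine mul_le_mul_of_nonneg_left ?_ (by positivity)
            refine Real.rpow_le_rpow_of_exponent_le hk1 ?_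
            rw [div_mul_eq_mul_div, div_le_iff₀ (by positivity)]
            nlinarith
    have hone : ∀ z ∈ (Fintype.piFinset fun _ : ι => k.divisors).filter
        (fun z => ∏ l, z l = k), ‖cc f z‖ ≤ 1 := by
      intro z hz
      rw [Finset.mem_filter, Fintype.mem_piFinset] at hz
      exact norm_cc_le f fun l => Nat.pos_of_mem_divisors (hz.1 l)
    refine ⟨?_, ?_⟩
    · refine le_trans ?_ hcard
      unfold ac
      refine (norm_sum_le _ _).trans ?_
      refine (Finset.sum_le_card_nsmul _ _ 1 hone).trans ?_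
      rw [nsmul_eq_mul, mul_one]
    · intro T hT
      refine le_trans ?_ hcard
      unfold at'
      refine (norm_sum_le _ _).trans ?_
      refine (Finset.sum_le_card_nsmul _ _ 1 fun z hz => hone z (filter_sub hk hz)).trans ?_
      rw [nsmul_eq_mul, mul_one]
      exact_mod_cast Finset.card_le_card (filter_sub hk)

end Pool.Agent.H36.RT
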