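import Pool.Agent.H29.RT.Targets

/-!
# Multiplicativity of the coefficients
-/

set_option autoImplicit false

open Complex MeasureTheory Set Filter Topology

namespace Pool.Agent.H36.RT

open Pool.Agent.H29.RT Pool.Agent.H25.DP Pool.Agent.H25.DL

variable {ι : Type} [Fintype ι]

open Classical in
/-- the tuples of divisors with a given product -/
noncomputable def dt (ι : Type) [Fintype ι] (k : ℕ) : Finset (ι → ℕ) :=
  (Fintype.piFinset fun _ : ι => k.divisors).filter (fun z => ∏ l, z l = k)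

lemma ac_eq (f : ι → Fac) (k : ℕ) : ac f k = ∑ z ∈ dt ι k, cc f z := rfl

lemma mem_dt {k : ℕ} (hk : k ≠ 0) (z : ι → ℕ) : z ∈ dt ι k ↔ ∏ l, z l = k := by
  classical
  unfold dt
  rw [Finset.mem_filter, Fintype.mem_piFinset]
  constructor
  · exact fun h => h.2
  · intro h
    refine ⟨fun l => ?_, h⟩
    rw [Nat.mem_divisors]
    refine ⟨?_, hk⟩
    rw [← h]
    exact Finset.dvd_prod_of_mem z (Finset.mem_univ l)

lemma cc_mul (f : ι → Fac) (hf : ∀ l, ∀ m n : ℕ, Nat.Coprime m n →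
    (f l).c (m * n) = (f l).c m * (f l).c n) {x y : ι → ℕ}
    (hxy : ∀ l, Nat.Coprime (x l) (y l)) : cc f (x * y) = cc f x * cc f y := by
  unfold cc
  rw [← Finset.prod_mul_distrib]
  refine Finset.prod_congr rfl fun l _ => ?_
  rw [Pi.mul_apply, hf l _ _ (hxy l), Nat.cast_mul, Complex.natCast_mul_natCast_cpow]
  ring

lemma ac_one (f : ι → Fac) : ac f 1 = 1 := by
  rw [ac_eq]
  have : dt ι 1 = {1} := by
    ext z
    rw [mem_dt one_ne_zero, Finset.mem_singleton]
    constructor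
    · intro h
      funext l
      have h1 : z l ∣ ∏ l, z l := Finset.dvd_prod_of_mem z (Finset.mem_univ l)
      rw [h] at h1
      exact Nat.dvd_one.1 h1
    · rintro rfl
      simp
  rw [this, Finset.sum_singleton]
  unfold cc
  refine Finset.prod_eq_one fun l _ => ?_
  rw [Pi.one_apply, (f l).c_one]
  simp

lemma prod_gcd {m n : ℕ} (hm : m ≠ 0) (hn : n ≠ 0) (h : Nat.Coprime m n) {z : ι → ℕ}
    (hz : ∏ l, z l = m * n) :
    ∏ l, Nat.gcd (z l) m = m ∧ ∏ l, Nat.gcd (z l) n = n := by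
  have h0 : ∀ l, Nat.gcd (z l) m * Nat.gcd (z l) n = z l := by
    intro l
    rw [← Nat.Coprime.gcd_mul _ h]
    refine Nat.gcd_eq_left ?_
    rw [← hz]
    exact Finset.dvd_prod_of_mem z (Finset.mem_univ l)
  have h1 : (∏ l, Nat.gcd (z l) m) * ∏ l, Nat.gcd (z l) n = m * n := by
    rw [← Finset.prod_mul_distrib, ← hz]
    exact Finset.prod_congr rfl fun l _ => h0 l
  have h2 : Nat.Coprime (∏ l, Nat.gcd (z l) m) n :=
    Nat.Coprime.prod_left fun l _ => Nat.Coprime.coprime_dvd_left (Nat.gcd_dvd_right _ _) h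
  have h3 : Nat.Coprime (∏ l, Nat.gcd (z l) n) m :=
    Nat.Coprime.prod_left fun l _ => Nat.Coprime.coprime_dvd_left (Nat.gcd_dvd_right _ _) h.symm
  obtain ⟨a, ha⟩ : (∏ l, Nat.gcd (z l) m) ∣ m :=
    h2.dvd_of_dvd_mul_right (Dvd.intro _ h1)
  obtain ⟨b, hb⟩ : (∏ l, Nat.gcd (z l) n) ∣ n :=
    h3.dvd_of_dvd_mul_left (Dvd.intro_left _ h1)
  set X := ∏ l, Nat.gcd (z l) m
  set Y := ∏ l, Nat.gcd (z l) n
  have hX : X ≠ 0 := by
    intro h
    rw [h, zero_mul] at ha
    exact hm ha
  have hY : Y ≠ 0 := by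
    intro h
    rw [h, zero_mul] at hb
    exact hn hb
  have h4 : X * Y * (a * b) = X * Y * 1 := by
    calc X * Y * (a * b) = (X * a) * (Y * b) := by ring
      _ = m * n := by rw [← ha, ← hb]
      _ = X * Y * 1 := by rw [mul_one, h1]
  have h5 : a * b = 1 := Nat.eq_of_mul_eq_mul_left (Nat.mul_pos (Nat.pos_of_ne_zero hX)
    (Nat.pos_of_ne_zero hY)) h4
  have ha1 : a = 1 := Nat.eq_one_of_mul_eq_one_right h5
  have hb1 : b = 1 := Nat.eq_one_of_mul_eq_one_left h5
  rw [ha1, mul_one] at ha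
  rw [hb1, mul_one] at hb
  exact ⟨ha.symm, hb.symm⟩

lemma ac_mul (f : ι → Fac) (hf : ∀ l, ∀ m n : ℕ, Nat.Coprime m n →
    (f l).c (m * n) = (f l).c m * (f l).c n) (m n : ℕ) (h : Nat.Coprime m n) :
    ac f (m * n) = ac f m * ac f n := by
  rcases Nat.eq_zero_or_pos m with rfl | hm
  · rw [Nat.coprime_zero_left] at h
    rw [h, Nat.mul_one, ac_one, mul_one]
  rcases Nat.eq_zero_or_pos n with rfl | hn
  · rw [Nat.coprime_zero_right] at h
    rw [h, Nat.one_mul, ac_one, one_mul]
  have hm0 := hm.ne'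
  have hn0 := hn.ne'
  have hmn : m * n ≠ 0 := Nat.mul_ne_zero hm0 hn0
  rw [ac_eq, ac_eq, ac_eq, Finset.sum_mul_sum, ← Finset.sum_product']
  symm
  refine Finset.sum_nbij' (fun q => q.1 * q.2)
    (fun z => (fun l => Nat.gcd (z l) m, fun l => Nat.gcd (z l) n)) ?_ ?_ ?_ ?_ ?_
  · rintro ⟨x, y⟩ hxy
    rw [Finset.mem_product, mem_dt hm0, mem_dt hn0] at hxy
    rw [mem_dt hmn]
    simp only [Pi.mul_apply]
    rw [Finset.prod_mul_distrib, hxy.1, hxy.2]
  · intro z hz
    rw [mem_dt hmn] at hz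
    rw [Finset.mem_product, mem_dt hm0, mem_dt hn0]
    exact prod_gcd hm0 hn0 h hz
  · rintro ⟨x, y⟩ hxy
    rw [Finset.mem_product, mem_dt hm0, mem_dt hn0] at hxy
    simp only at hxy
    have hx : ∀ l, x l ∣ m := by
      intro l
      rw [← hxy.1]
      exact Finset.dvd_prod_of_mem x (Finset.mem_univ l)
    have hy : ∀ l, y l ∣ n := by
      intro l
      rw [← hxy.2]
      exact Finset.dvd_prod_of_mem y (Finset.mem_univ l)
    simp only [Pi.mul_apply, Prod.mk.injEq]
    constructor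
    · funext l
      have hc : Nat.Coprime (y l) m := (Nat.Coprime.coprime_dvd_right (hy l) h).symm
      rw [Nat.Coprime.gcd_mul_right_cancel _ hc]
      exact Nat.gcd_eq_left (hx l)
    · funext l
      have hc : Nat.Coprime (x l) n := Nat.Coprime.coprime_dvd_left (hx l) h
      rw [Nat.Coprime.gcd_mul_left_cancel _ hc]
      exact Nat.gcd_eq_left (hy l)
  · intro z hz
    rw [mem_dt hmn] at hz
    funext l
    simp only [Pi.mul_apply]
    rw [← Nat.Coprime.gcd_mul _ h]
    refine Nat.gcd_eq_left ?_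
    rw [← hz]
    exact Finset.dvd_prod_of_mem z (Finset.mem_univ l)
  · rintro ⟨x, y⟩ hxy
    rw [Finset.mem_product, mem_dt hm0, mem_dt hn0] at hxy
    simp only at hxy
    refine (cc_mul f hf fun l => ?_).symm
    refine Nat.Coprime.coprime_dvd_left ?_ (Nat.Coprime.coprime_dvd_right ?_ h)
    · rw [← hxy.1]
      exact Finset.dvd_prod_of_mem x (Finset.mem_univ l)
    · rw [← hxy.2]
      exact Finset.dvd_prod_of_mem y (Finset.mem_univ l)

lemma ac_prime (f : ι → Fac) {p : ℕ} (hp : p.Prime) :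
    ac f p = ∑ l, (f l).c p * (p : ℂ) ^ (-((f l).τ * I) : ℂ) := by
  classical
  rw [ac_eq]
  symm
  refine Finset.sum_bij (fun l _ => Function.update (fun _ => 1) l p) ?_ ?_ ?_ ?_
  · intro l _
    rw [mem_dt hp.ne_zero, Finset.prod_update_of_mem (Finset.mem_univ l)]
    simp
  · intro l _ l' _ h
    by_contra hne
    have := congrFun h l
    rw [Function.update_self, Function.update_of_ne hne] at this
    exact hp.one_lt.ne' this
  · intro z hz
    rw [mem_dt hp.ne_zero] at hz
    have h1 : p ∣ ∏ l, z l := by rw [hz]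
    rw [Prime.dvd_finsetProd_iff hp.prime] at h1
    obtain ⟨l, -, hl⟩ := h1
    refine ⟨l, Finset.mem_univ l, ?_⟩
    have h2 : z l ∣ p := by
      rw [← hz]
      exact Finset.dvd_prod_of_mem z (Finset.mem_univ l)
    have h3 : z l = p := Nat.dvd_antisymm h2 hl
    have h4 := Finset.mul_prod_erase Finset.univ z (Finset.mem_univ l)
    rw [hz, h3] at h4
    have h5 : ∏ x ∈ Finset.univ.erase l, z x = 1 := by
      refine Nat.eq_of_mul_eq_mul_left hp.pos ?_
      rw [h4, mul_one]
    funext x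
    rcases eq_or_ne x l with rfl | hx
    · rw [Function.update_self, h3]
    · rw [Function.update_of_ne hx]
      have h6 : z x ∣ ∏ x ∈ Finset.univ.erase l, z x :=
        Finset.dvd_prod_of_mem z (Finset.mem_erase.2 ⟨hx, Finset.mem_univ x⟩)
      rw [h5] at h6
      exact (Nat.dvd_one.1 h6).symm
  · intro l _
    unfold cc
    rw [Finset.prod_eq_single l]
    · rw [Function.update_self]
    · intro x _ hx
      rw [Function.update_of_ne hx, (f x).c_one]
      simp
    · intro h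
      exact absurd (Finset.mem_univ l) h

theorem pf_acm : T_ACM := by
  intro ι _ f hf
  exact ⟨ac_one f, ac_mul f hf, fun p hp => ac_prime f hp⟩

end Pool.Agent.H36.RT
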